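import Pool.Agent.Lib.MP_40d282_co.Defs

/-! Plane geometry for the upper bound on the union density: area of a thin segment of a disk,
separation of the directions of the larger neighbours, and their number. -/

open MeasureTheory Metric Set
open scoped ENNReal RealInnerProductSpace

namespace Pool.Agent.FS.ExcessOrder

open Pool.Agent.Lib.MP_40d282_co

lemma vol_b (x : Plane) {r : ℝ} (hr : 0 ≤ r) :
    volume (ball x r) = ENNReal.ofReal (Real.pi * r ^ 2) := by
  rw [EuclideanSpace.volume_ball_fin_two, ← ENNReal.ofReal_pow hr,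
    ← ENNReal.ofReal_mul (by positivity), mul_comm]

lemma vol_cap {r μ h : ℝ} (hr : 0 < r) (hh : 0 ≤ h) (hh2 : h ^ 2 = 2 * (1 - μ)) :
    volume {p : Plane | p 0 ∈ Icc (-(h * r)) (h * r) ∧ p 1 ∈ Ioo (μ * r) (r - p 0 ^ 2 / (2 * r))}
      = ENNReal.ofReal (4 / 3 * ((1 - μ) * h) * r ^ 2) := by
  have hH : 0 ≤ h * r := by positivity
  have e : {p : Plane | p 0 ∈ Icc (-(h * r)) (h * r) ∧ p 1 ∈ Ioo (μ * r) (r - p 0 ^ 2 / (2 * r))}
      = (WithLp.ofLp : Plane → (Fin 2 → ℝ)) ⁻¹' (MeasurableEquiv.finTwoArrow ⁻¹'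
        regionBetween (fun _ => μ * r) (fun b => r - b ^ 2 / (2 * r)) (Icc (-(h * r)) (h * r))) := rfl
  have m : MeasurableSet
      (regionBetween (fun _ => μ * r) (fun b => r - b ^ 2 / (2 * r)) (Icc (-(h * r)) (h * r))) :=
    measurableSet_regionBetween (by fun_prop) (by fun_prop) measurableSet_Icc
  rw [e, (PiLp.volume_preserving_ofLp (Fin 2)).measure_preimage
    (MeasurableEquiv.finTwoArrow.measurable m).nullMeasurableSet,
    (volume_preserving_finTwoArrow ℝ).measure_preimage m.nullMeasurableSet, Measure.volume_eq_prod,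
    volume_regionBetween_eq_integral (Continuous.integrableOn_Icc (by fun_prop))
      (Continuous.integrableOn_Icc (by fun_prop)) measurableSet_Icc]
  · congr 1
    rw [integral_Icc_eq_integral_Ioc, ← intervalIntegral.integral_of_le (by linarith)]
    have : ((fun b : ℝ => r - b ^ 2 / (2 * r)) - fun _ => μ * r)
        = fun b => (r - μ * r) - (2 * r)⁻¹ * b ^ 2 := by
      ext b
      simp only [Pi.sub_apply]
      ring
    rw [this, intervalIntegral.integral_sub (by simp) (Continuous.intervalIntegrable (by fun_prop) _ _),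
      intervalIntegral.integral_const_mul, integral_pow, intervalIntegral.integral_const, smul_eq_mul]
    have h3 : h ^ 3 = h * (2 * (1 - μ)) := by rw [← hh2]; ring
    field_simp
    ring_nf
    rw [h3]
    ring
  · intro b hb
    have h1 : b ^ 2 ≤ (h * r) ^ 2 := sq_le_sq' hb.1 hb.2
    have h2 : b ^ 2 / (2 * r) ≤ (1 - μ) * r := by
      rw [div_le_iff₀ (by positivity)]
      rw [mul_pow, hh2] at h1
      nlinarith
    linarith

/-- The part of a disk beyond the line at distance `μ r` from the centre lies under a parabola. -/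
lemma vol_seg (x e : Plane) (he : ‖e‖ = 1) {r μ h : ℝ} (hr : 0 < r)
    (hh : 0 ≤ h) (hh2 : h ^ 2 = 2 * (1 - μ)) :
    volume {y : Plane | y ∈ ball x r ∧ μ * r < ⟪y - x, e⟫}
      ≤ ENNReal.ofReal (4 / 3 * ((1 - μ) * h) * r ^ 2) := by
  let e0 : Plane := EuclideanSpace.single 1 1
  have he0 : ‖e‖ = ‖e0‖ := by simp [e0, he]
  let f := (ℝ ∙ (e - e0))ᗮ.reflection
  have hf : f e = e0 := Submodule.reflection_sub he0
  have hmp : MeasurePreserving (fun y : Plane => f (y - x)) volume volume :=
    f.measurePreserving.comp (measurePreserving_sub_right volume x)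
  have hm : MeasurableSet
      {p : Plane | p 0 ∈ Icc (-(h * r)) (h * r) ∧ p 1 ∈ Ioo (μ * r) (r - p 0 ^ 2 / (2 * r))} :=
    (measurableSet_Icc.preimage (by fun_prop : Measurable fun p : Plane => p 0)).inter
      ((measurableSet_lt (by fun_prop) (by fun_prop : Measurable fun p : Plane => p 1)).inter
        (measurableSet_lt (by fun_prop : Measurable fun p : Plane => p 1) (by fun_prop)))
  rw [← vol_cap hr hh hh2, ← hmp.measure_preimage hm.nullMeasurableSet]
  refine measure_mono fun y hy => ?_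
  obtain ⟨h1, h2⟩ := hy
  have h3 : ⟪y - x, e⟫ = (f (y - x)) 1 := by
    rw [← f.inner_map_map, hf]
    simp only [e0, EuclideanSpace.inner_single_right]
    simp
  have h4 : ‖f (y - x)‖ < r := by
    rw [f.norm_map, ← dist_eq_norm]
    exact h1
  have h5 : (f (y - x)) 0 ^ 2 + (f (y - x)) 1 ^ 2 < r ^ 2 := by
    have := EuclideanSpace.real_norm_sq_eq (f (y - x))
    rw [Fin.sum_univ_two] at this
    rw [← this]
    exact pow_lt_pow_left₀ h4 (norm_nonneg _) two_ne_zero
  rw [h3] at h2
  change (f (y - x)) 0 ∈ Icc (-(h * r)) (h * r) ∧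
    (f (y - x)) 1 ∈ Ioo (μ * r) (r - (f (y - x)) 0 ^ 2 / (2 * r))
  generalize (f (y - x)) 0 = b at *
  generalize (f (y - x)) 1 = a at *
  have h6 : b ^ 2 < (r - a) * (2 * r) := by nlinarith [sq_nonneg (r - a)]
  have h7 : b ^ 2 ≤ (h * r) ^ 2 := by
    rw [mul_pow, hh2]
    nlinarith
  refine ⟨abs_le_of_sq_le_sq' h7 (by positivity), h2, ?_⟩
  have := (div_lt_iff₀ (by positivity : 0 < 2 * r)).2 h6
  linarith

lemma chord_le (s t : ℝ) :
    ‖Complex.exp (s * Complex.I) - Complex.exp (t * Complex.I)‖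
      ≤ dist (s : AddCircle (2 * Real.pi)) (t : AddCircle (2 * Real.pi)) := by
  rw [dist_eq_norm, ← AddCircle.coe_sub, AddCircle.norm_eq]
  set k := round ((2 * Real.pi)⁻¹ * (s - t))
  have e : Complex.exp (s * Complex.I) - Complex.exp (t * Complex.I) = Complex.exp (t * Complex.I)
      * (Complex.exp (Complex.I * ((s - t - k * (2 * Real.pi) : ℝ) : ℂ)) - 1) := by
    rw [mul_sub, ← Complex.exp_add, mul_one]
    congr 1
    rw [Complex.exp_eq_exp_iff_exists_int]
    exact ⟨k, by push_cast; ring⟩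
  rw [e, norm_mul, Complex.norm_exp_ofReal_mul_I, one_mul]
  exact Real.norm_exp_I_mul_ofReal_sub_one_le

/-- Unit vectors at mutual distance at least `9/10`: at most `6` of them. -/
lemma card_le {ι : Type} (T : Finset ι) (e : ι → Plane) (he : ∀ j ∈ T, ‖e j‖ = 1)
    (hs : ∀ j ∈ T, ∀ k ∈ T, j ≠ k → 9 / 10 ≤ dist (e j) (e k)) : T.card ≤ 6 := by
  have : Fact (0 < 2 * Real.pi) := ⟨by positivity⟩
  let z : ι → ℂ := fun j => Complex.orthonormalBasisOneI.repr.symm (e j)
  let a : ι → AddCircle (2 * Real.pi) := fun j => ((z j).arg : ℝ)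
  have hz : ∀ j ∈ T, Complex.exp ((z j).arg * Complex.I) = z j := fun j hj => by
    have := Complex.norm_mul_exp_arg_mul_I (z j)
    rwa [LinearIsometryEquiv.norm_map, he j hj, Complex.ofReal_one, one_mul] at this
  have hd : (T : Set ι).PairwiseDisjoint fun j => closedBall (a j) (449 / 1000 : ℝ) := by
    intro j hj k hk hjk
    refine closedBall_disjoint_closedBall ?_
    have h1 := chord_le (z j).arg (z k).arg
    rw [hz j hj, hz k hk, ← dist_eq_norm, LinearIsometryEquiv.dist_map] at h1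
    have h2 := hs j hj k hk hjk
    change _ < dist (((z j).arg : ℝ) : AddCircle (2 * Real.pi)) (((z k).arg : ℝ) : AddCircle (2 * Real.pi))
    linarith
  have h1 := measure_biUnion_finset (μ := volume) hd fun j _ => measurableSet_closedBall
  have h3 := measure_mono (μ := volume) (subset_univ (⋃ j ∈ T, closedBall (a j) (449 / 1000 : ℝ)))
  have p3 := Real.pi_gt_three
  have hm : min (2 * Real.pi) (2 * (449 / 1000 : ℝ)) = 449 / 500 := by
    rw [min_eq_right (by linarith)]
    norm_num
  rw [h1, AddCircle.measure_univ] at h3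
  simp only [AddCircle.volume_closedBall, hm, Finset.sum_const, nsmul_eq_mul] at h3
  rw [← ENNReal.ofReal_natCast, ← ENNReal.ofReal_mul (by positivity),
    ENNReal.ofReal_le_ofReal_iff (by positivity)] at h3
  have h4 : (T.card : ℝ) < 7 := by nlinarith [Real.pi_lt_d4]
  have h5 : T.card < 7 := by exact_mod_cast h4
  omega

/-- Two larger disks that both meet a disk of radius `r` are seen from its centre in
well separated directions. -/
lemma sep {r a b μ d d' : ℝ} {e e' : Plane} (he : ‖e‖ = 1) (he' : ‖e'‖ = 1) (hr : 0 < r)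
    (hb : r ≤ b) (hab : b ≤ a) (hμ : 7 / 8 ≤ μ) (h1 : a + μ * r ≤ d) (h2 : d < a + r)
    (h3 : b + μ * r ≤ d') (h4 : d' < b + r) (h5 : a + μ * b ≤ ‖d • e - d' • e'‖) :
    9 / 10 ≤ dist e e' := by
  have hd : 0 < d := by nlinarith
  have hd' : 0 < d' := by nlinarith
  have k1 : ‖d • e - d' • e'‖ ^ 2 = (d - d') ^ 2 + d * d' * dist e e' ^ 2 := by
    rw [dist_eq_norm, norm_sub_sq_real, norm_sub_sq_real, norm_smul, norm_smul, he, he',
      inner_smul_left, inner_smul_right, Real.norm_of_nonneg hd.le, Real.norm_of_nonneg hd'.le]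
    simp only [conj_trivial]
    ring
  have hμr : 7 / 8 * r ≤ μ * r := by gcongr
  have hμb : 7 / 8 * b ≤ μ * b := mul_le_mul_of_nonneg_right hμ (by linarith)
  have k2 : (a + 7 / 8 * b) ^ 2 ≤ ‖d • e - d' • e'‖ ^ 2 :=
    pow_le_pow_left₀ (by nlinarith) (by linarith) 2
  have k3 : (d - d') ^ 2 ≤ (a - b + r / 8) ^ 2 := sq_le_sq' (by linarith) (by linarith)
  have k4 : d * d' ≤ 4 * (a * b) := by nlinarith
  by_contra hc
  have k5 : dist e e' ^ 2 ≤ (9 / 10) ^ 2 := pow_le_pow_left₀ dist_nonneg (not_le.1 hc).le 2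
  have k6 : d * d' * dist e e' ^ 2 ≤ 4 * (a * b) * (9 / 10) ^ 2 := by
    have : 0 ≤ 4 * (a * b) := by nlinarith
    gcongr
  have k7 : (7 / 4 * b) * (15 / 8 * a) ≤ (15 / 8 * b - r / 8) * (2 * a - b / 8 + r / 8) :=
    mul_le_mul (by linarith) (by linarith) (by linarith) (by linarith)
  have k8 : 0 < a * b := by nlinarith
  nlinarith

end Pool.Agent.FS.ExcessOrder
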