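import Pool.Agent.FS.ExcessOrder.Geo

/-! The part of a member not covered by larger members has at least the share
`1 - 8 (1-μ) √(2(1-μ)) / π` of its area; these parts are disjoint. -/

open MeasureTheory Metric Set Filter
open scoped ENNReal RealInnerProductSpace

namespace Pool.Agent.FS.ExcessOrder

open Pool.Agent.Lib.MP_40d282_co

variable {ι : Type} {μ : ℝ} {x : ι → Plane} {ρ : ι → ℝ}

/-- unit vector from `x i` towards `x j` -/
noncomputable def dir (x : ι → Plane) (i j : ι) : Plane := (dist (x j) (x i))⁻¹ • (x j - x i)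

lemma dir_spec {i j : ι} (h : 0 < dist (x j) (x i)) :
    ‖dir x i j‖ = 1 ∧ dist (x j) (x i) • dir x i j = x j - x i := by
  constructor
  · rw [dir, norm_smul, ← dist_eq_norm, norm_inv, Real.norm_of_nonneg h.le, inv_mul_cancel₀ h.ne']
  · rw [dir, smul_smul, mul_inv_cancel₀ h.ne', one_smul]

/-- larger members that meet member `i` -/
def nb (x : ι → Plane) (ρ : ι → ℝ) (i : ι) : Set ι :=
  {j | j ≠ i ∧ ρ i ≤ ρ j ∧ dist (x j) (x i) < ρ j + ρ i}

lemma low (hA : IsArrangement μ x ρ) {i j : ι} (h : j ≠ i) : ρ j + μ * ρ i ≤ dist (x j) (x i) :=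
  (le_max_left _ _).trans (hA.2 j i h)

lemma dist_pos' (hA : IsArrangement μ x ρ) (hμ : 7 / 8 ≤ μ) {i j : ι} (h : j ≠ i) :
    0 < dist (x j) (x i) := by
  have := low hA h
  nlinarith [hA.1 i, hA.1 j]

lemma nb_card (hA : IsArrangement μ x ρ) (hμ : 7 / 8 ≤ μ) (i : ι) (T : Finset ι)
    (hT : (T : Set ι) ⊆ nb x ρ i) : T.card ≤ 6 := by
  have key : ∀ j ∈ nb x ρ i, ∀ k ∈ nb x ρ i, j ≠ k → ρ k ≤ ρ j →
      9 / 10 ≤ dist (dir x i j) (dir x i k) := by
    intro j hj k hk hjk hle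
    obtain ⟨a1, a2⟩ := dir_spec (x := x) (dist_pos' hA hμ hj.1)
    obtain ⟨b1, b2⟩ := dir_spec (x := x) (dist_pos' hA hμ hk.1)
    refine sep a1 b1 (hA.1 i) hk.2.1 hle hμ (low hA hj.1) hj.2.2 (low hA hk.1) hk.2.2 ?_
    rw [a2, b2, sub_sub_sub_cancel_right, ← dist_eq_norm]
    exact low hA hjk
  refine card_le T (dir x i) (fun j hj => (dir_spec (dist_pos' hA hμ (hT hj).1)).1) ?_
  intro j hj k hk hjk
  rcases le_total (ρ k) (ρ j) with h | h
  · exact key j (hT hj) k (hT hk) hjk h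
  · rw [dist_comm]
    exact key k (hT hk) j (hT hj) hjk.symm h

lemma nb_finite (hA : IsArrangement μ x ρ) (hμ : 7 / 8 ≤ μ) (i : ι) : (nb x ρ i).Finite := by
  by_contra h
  obtain ⟨T, hT, hc⟩ := Set.Infinite.exists_subset_card_eq h 7
  have := nb_card hA hμ i T hT
  omega

lemma overlap (hA : IsArrangement μ x ρ) (hμ : 7 / 8 ≤ μ) (hμ1 : μ < 1) {i j : ι} (h : j ≠ i) :
    volume (ball (x i) (ρ i) ∩ ball (x j) (ρ j))
      ≤ ENNReal.ofReal (4 / 3 * ((1 - μ) * √(2 * (1 - μ))) * ρ i ^ 2) := by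
  obtain ⟨a1, a2⟩ := dir_spec (x := x) (dist_pos' hA hμ h)
  refine (measure_mono fun y hy => ?_).trans (vol_seg (x i) (dir x i j) a1 (hA.1 i)
    (Real.sqrt_nonneg _) (Real.sq_sqrt (by linarith)))
  refine ⟨hy.1, ?_⟩
  have e1 : y - x i = (y - x j) + dist (x j) (x i) • dir x i j := by rw [a2]; abel
  have e2 := abs_real_inner_le_norm (y - x j) (dir x i j)
  have e3 : ‖y - x j‖ < ρ j := by rw [← dist_eq_norm]; exact hy.2
  rw [e1, inner_add_left, inner_smul_left, real_inner_self_eq_norm_sq, a1]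
  rw [a1] at e2
  have e4 := low hA h
  have e5 := (abs_le.1 e2).1
  simp only [conj_trivial]
  linarith

lemma covered (hA : IsArrangement μ x ρ) (hμ : 7 / 8 ≤ μ) (hμ1 : μ < 1) (i : ι) :
    volume (ball (x i) (ρ i) ∩ ⋃ j ∈ {j | j ≠ i ∧ ρ i ≤ ρ j}, ball (x j) (ρ j))
      ≤ ENNReal.ofReal (8 * ((1 - μ) * √(2 * (1 - μ))) * ρ i ^ 2) := by
  have hf := nb_finite hA hμ i
  have h1 : ball (x i) (ρ i) ∩ (⋃ j ∈ {j | j ≠ i ∧ ρ i ≤ ρ j}, ball (x j) (ρ j))
      ⊆ ⋃ j ∈ hf.toFinset, ball (x i) (ρ i) ∩ ball (x j) (ρ j) := by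
    rintro y ⟨hy, hy'⟩
    obtain ⟨j, hj, hyj⟩ := mem_iUnion₂.1 hy'
    refine mem_iUnion₂.2 ⟨j, hf.mem_toFinset.2 ⟨hj.1, hj.2, ?_⟩, hy, hyj⟩
    have := dist_triangle_left (x j) (x i) y
    have a : dist y (x j) < ρ j := hyj
    have b : dist y (x i) < ρ i := hy
    linarith
  refine (measure_mono h1).trans ((measure_biUnion_finset_le _ _).trans ?_)
  refine (Finset.sum_le_card_nsmul _ _ _ fun j hj =>
    overlap hA hμ hμ1 (hf.mem_toFinset.1 hj).1).trans ?_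
  have h2 : (hf.toFinset.card : ℝ) ≤ 6 := by
    exact_mod_cast nb_card hA hμ i hf.toFinset (by simp)
  rw [nsmul_eq_mul, ← ENNReal.ofReal_natCast, ← ENNReal.ofReal_mul (by positivity)]
  refine ENNReal.ofReal_le_ofReal ?_
  have : 0 ≤ 4 / 3 * ((1 - μ) * √(2 * (1 - μ))) * ρ i ^ 2 := by
    have : 0 ≤ 1 - μ := by linarith
    positivity
  nlinarith

lemma share (hA : IsArrangement μ x ρ) (hμ : 7 / 8 ≤ μ) (hμ1 : μ < 1) (i : ι) {U : Set Plane}
    (hU : U ⊆ ⋃ j ∈ {j | j ≠ i ∧ ρ i ≤ ρ j}, ball (x j) (ρ j)) :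
    volume (ball (x i) (ρ i))
      ≤ ENNReal.ofReal (Real.pi / (Real.pi - 8 * ((1 - μ) * √(2 * (1 - μ))))) * volume (ball (x i) (ρ i) \ U) := by
  set y := (1 - μ) * √(2 * (1 - μ)) with hy
  have ht : 0 ≤ 1 - μ := by linarith
  have y0 : 0 ≤ y := by positivity
  have hs : √(2 * (1 - μ)) ≤ 1 / 2 := Real.sqrt_le_iff.2 ⟨by norm_num, by linarith⟩
  have y1 : y ≤ 1 / 8 * (1 / 2) := mul_le_mul (by linarith) hs (by positivity) (by norm_num)
  have p3 := Real.pi_gt_three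
  have p4 : 0 < Real.pi - 8 * y := by linarith
  have h1 : volume (ball (x i) (ρ i)) ≤ volume (ball (x i) (ρ i) \ U)
      + ENNReal.ofReal (8 * y * ρ i ^ 2) :=
    (measure_le_inter_add_sdiff volume _ U).trans ((add_comm _ _).trans_le (add_le_add le_rfl
      ((measure_mono (inter_subset_inter_right _ hU)).trans (covered hA hμ hμ1 i))))
  have hfin : volume (ball (x i) (ρ i) \ U) ≠ ∞ :=
    ((measure_mono sdiff_subset).trans_lt measure_ball_lt_top).ne
  rw [vol_b _ (hA.1 i).le] at h1 ⊢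
  rw [← ENNReal.ofReal_toReal hfin] at h1 ⊢
  have v0 : 0 ≤ (volume (ball (x i) (ρ i) \ U)).toReal := ENNReal.toReal_nonneg
  set v := (volume (ball (x i) (ρ i) \ U)).toReal
  rw [← ENNReal.ofReal_add v0 (by positivity), ENNReal.ofReal_le_ofReal_iff (by positivity)] at h1
  rw [← ENNReal.ofReal_mul (by positivity)]
  refine ENNReal.ofReal_le_ofReal ?_
  rw [div_mul_eq_mul_div, le_div_iff₀ p4, mul_assoc]
  exact mul_le_mul_of_nonneg_left (by linarith) (by linarith)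

/-- union of the members that come before member `i` (larger radius, ties broken by `c`) -/
def before (x : ι → Plane) (ρ : ι → ℝ) (c : ι → ℕ) (i : ι) : Set Plane :=
  ⋃ j ∈ {j | ρ i < ρ j ∨ (ρ i = ρ j ∧ c j < c i)}, ball (x j) (ρ j)

lemma before_sub (c : ι → ℕ) (i : ι) :
    before x ρ c i ⊆ ⋃ j ∈ {j | j ≠ i ∧ ρ i ≤ ρ j}, ball (x j) (ρ j) :=
  biUnion_subset_biUnion_left fun j hj => by
    rcases hj with h | ⟨h, h'⟩
    · exact ⟨fun e => by rw [e] at h; exact lt_irrefl _ h, h.le⟩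
    · exact ⟨fun e => by rw [e] at h'; exact lt_irrefl _ h', h.le⟩

lemma before_meas (c : ι → ℕ) (i : ι) : MeasurableSet (ball (x i) (ρ i) \ before x ρ c i) :=
  measurableSet_ball.diff (isOpen_biUnion fun _ _ => isOpen_ball).measurableSet

lemma before_disj {c : ι → ℕ} {i j : ι} (hne : c i ≠ c j) :
    Disjoint (ball (x i) (ρ i) \ before x ρ c i) (ball (x j) (ρ j) \ before x ρ c j) := by
  refine Set.disjoint_left.2 fun y hi hj => ?_
  rcases lt_trichotomy (ρ i) (ρ j) with h | h | h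
  · exact hi.2 (mem_iUnion₂.2 ⟨j, Or.inl h, hj.1⟩)
  · rcases lt_or_gt_of_ne hne with h' | h'
    · exact hj.2 (mem_iUnion₂.2 ⟨i, Or.inr ⟨h.symm, h'⟩, hi.1⟩)
    · exact hi.2 (mem_iUnion₂.2 ⟨j, Or.inr ⟨h, h'⟩, hj.1⟩)
  · exact hj.2 (mem_iUnion₂.2 ⟨i, Or.inl h, hi.1⟩)

lemma sum_le [Countable ι] (hA : IsArrangement μ x ρ) (hμ : 7 / 8 ≤ μ) (hμ1 : μ < 1)
    (P : ι → Prop) :
    ∑' i : {i // P i}, volume (ball (x i) (ρ i))
      ≤ ENNReal.ofReal (Real.pi / (Real.pi - 8 * ((1 - μ) * √(2 * (1 - μ)))))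
        * volume (⋃ i : {i // P i}, ball (x i) (ρ i)) := by
  obtain ⟨c, hc⟩ := Countable.exists_injective_nat ι
  have h1 : volume (⋃ i : {i // P i}, ball (x i) (ρ i) \ before x ρ c i)
      = ∑' i : {i // P i}, volume (ball (x i) (ρ i) \ before x ρ c i) :=
    measure_iUnion (fun i j hij => before_disj fun e => hij (Subtype.ext (hc e)))
      fun i => before_meas c i.1
  have h2 : volume (⋃ i : {i // P i}, ball (x i) (ρ i) \ before x ρ c i)
      ≤ volume (⋃ i : {i // P i}, ball (x i) (ρ i)) :=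
    measure_mono (iUnion_mono fun i => sdiff_subset)
  have h3 : ∑' i : {i // P i}, volume (ball (x i) (ρ i))
      ≤ ∑' i : {i // P i}, ENNReal.ofReal (Real.pi / (Real.pi - 8 * ((1 - μ) * √(2 * (1 - μ)))))
        * volume (ball (x i) (ρ i) \ before x ρ c i) :=
    ENNReal.tsum_le_tsum fun i => share hA hμ hμ1 i.1 (before_sub c i.1)
  rw [ENNReal.tsum_mul_left, ← h1] at h3
  exact h3.trans (mul_le_mul_right h2 _)

theorem main [Countable ι] (hA : IsArrangement μ x ρ) (hμ : 7 / 8 ≤ μ) (hμ1 : μ < 1) :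
    unionDensity x ρ ≤ ENNReal.ofReal (Real.pi / (Real.pi - 8 * ((1 - μ) * √(2 * (1 - μ))))) :=
  limsup_le_of_le (by isBoundedDefault) (Eventually.of_forall fun R =>
    ENNReal.div_le_of_le_mul (sum_le hA hμ hμ1 _))

end Pool.Agent.FS.ExcessOrder
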