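import Mathlib

/-! A plane straight-line graph has at most three times as many edges as vertices
(sweep argument), and a weighted form of this count. -/

open Finset

namespace Pool.Agent.FS.ExcessOrder

variable {ι : Type} (X Y : ι → ℝ)

/-- slope of an edge -/
noncomputable def sl (e : ι × ι) : ℝ := (Y e.2 - Y e.1) / (X e.2 - X e.1)

/-- height of an edge at the abscissa `s` -/
noncomputable def ht (e : ι × ι) (s : ℝ) : ℝ := Y e.1 + sl X Y e * (s - X e.1)

lemma ht_left (e : ι × ι) : ht X Y e (X e.1) = Y e.1 := by simp [ht]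

lemma ht_right {e : ι × ι} (h : X e.1 < X e.2) : ht X Y e (X e.2) = Y e.2 := by
  have : X e.2 - X e.1 ≠ 0 := by linarith
  rw [ht, sl, div_mul_cancel₀ _ this]
  ring

lemma ht_from_right {e : ι × ι} (h : X e.1 < X e.2) (s : ℝ) :
    ht X Y e s = Y e.2 - sl X Y e * (X e.2 - s) := by
  rw [← ht_right X Y h, ht, ht]
  ring

lemma ht_cross (e f : ι × ι) {m M : ℝ} (hm : m < M) (h1 : ht X Y e m < ht X Y f m)
    (h2 : ht X Y f M < ht X Y e M) : ∃ s, m < s ∧ s < M ∧ ht X Y e s = ht X Y f s := by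
  have hc : ContinuousOn (fun s => ht X Y e s - ht X Y f s) (Set.Icc m M) := by
    unfold ht
    fun_prop
  obtain ⟨s, hs, e0⟩ := intermediate_value_Ioo hm.le hc
    (show (0 : ℝ) ∈ Set.Ioo _ _ from ⟨by linarith, by linarith⟩)
  exact ⟨s, hs.1, hs.2, by linarith [show ht X Y e s - ht X Y f s = 0 from e0]⟩

theorem planar [DecidableEq ι] (W : Finset ι) (D : Finset (ι × ι))
    (hX : ∀ a ∈ W, ∀ b ∈ W, X a = X b → a = b)
    (hD : ∀ e ∈ D, e.1 ∈ W ∧ e.2 ∈ W ∧ X e.1 < X e.2)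
    (NV : ∀ e ∈ D, ∀ z ∈ W, X e.1 < X z → X z < X e.2 → ht X Y e (X z) ≠ Y z)
    (NC0 : ∀ e ∈ D, ∀ f ∈ D, e.1 ≠ f.1 → e.2 ≠ f.2 → ∀ s, X e.1 < s → s < X e.2 → X f.1 < s →
      s < X f.2 → ht X Y e s ≠ ht X Y f s) : D.card ≤ 3 * W.card := by
  classical
  rcases D.eq_empty_or_nonempty with rfl | ⟨e0, -⟩
  · simp
  have : Nonempty ι := ⟨e0.1⟩
  have SL : ∀ e ∈ D, ∀ f ∈ D, e.1 = f.1 → sl X Y e = sl X Y f → e = f := by
    have k : ∀ e ∈ D, ∀ f ∈ D, e.1 = f.1 → sl X Y e = sl X Y f → ¬ X e.2 < X f.2 := by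
      intro e he f hf h1 h2 h3
      refine NV f hf e.2 (hD e he).2.1 (h1 ▸ (hD e he).2.2) h3 ?_
      rw [← ht_right X Y (hD e he).2.2, ht, ht, h1, h2]
    intro e he f hf h1 h2
    exact Prod.ext h1 (hX _ (hD e he).2.1 _ (hD f hf).2.1
      (le_antisymm (not_lt.1 (k f hf e he h1.symm h2.symm)) (not_lt.1 (k e he f hf h1 h2))))
  have SR : ∀ e ∈ D, ∀ f ∈ D, e.2 = f.2 → sl X Y e = sl X Y f → e = f := by
    have k : ∀ e ∈ D, ∀ f ∈ D, e.2 = f.2 → sl X Y e = sl X Y f → ¬ X f.1 < X e.1 := by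
      intro e he f hf h1 h2 h3
      refine NV f hf e.1 (hD e he).1 h3 (h1 ▸ (hD e he).2.2) ?_
      rw [← ht_left X Y e, ht_from_right X Y (hD e he).2.2, ht_from_right X Y (hD f hf).2.2, h1, h2]
    intro e he f hf h1 h2
    exact Prod.ext (hX _ (hD e he).1 _ (hD f hf).1
      (le_antisymm (not_lt.1 (k e he f hf h1 h2)) (not_lt.1 (k f hf e he h1.symm h2.symm)))) h1
  have NC : ∀ e ∈ D, ∀ f ∈ D, e ≠ f → ∀ s, X e.1 < s → s < X e.2 → X f.1 < s →
      s < X f.2 → ht X Y e s ≠ ht X Y f s := by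
    intro e he f hf hef s a1 a2 a3 a4 h
    by_cases h1 : e.1 = f.1
    · refine hef (SL e he f hf h1 ?_)
      rw [ht, ht, h1] at h
      exact mul_right_cancel₀ (show s - X f.1 ≠ 0 by linarith) (by linarith)
    by_cases h2 : e.2 = f.2
    · refine hef (SR e he f hf h2 ?_)
      rw [ht_from_right X Y (hD e he).2.2, ht_from_right X Y (hD f hf).2.2, h2] at h
      exact mul_right_cancel₀ (show X f.2 - s ≠ 0 by linarith) (by linarith)
    exact NC0 e he f hf h1 h2 s a1 a2 a3 a4 h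
  let up : ι × ι → Prop := fun e => ∃ f ∈ D, f.1 = e.1 ∧ sl X Y e < sl X Y f
  -- the next edge above and the first vertex of the wedge
  have wedge : ∀ e ∈ D, up e → ∃ (g : ι × ι) (u : ι), g ∈ D ∧ g.1 = e.1 ∧ sl X Y e < sl X Y g ∧
      u ∈ W ∧ X e.1 < X u ∧ X u ≤ X e.2 ∧ X u ≤ X g.2 ∧ ht X Y e (X u) ≤ Y u ∧
      Y u ≤ ht X Y g (X u) ∧
      ∀ f ∈ D, X f.1 < X u → X u ≤ X f.2 → ht X Y f (X u) < ht X Y g (X u) →
        (ht X Y e (X u) < ht X Y f (X u) ∨ (ht X Y e (X u) = ht X Y f (X u) ∧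
          sl X Y f < sl X Y e)) → False := by
    intro e he hup
    obtain ⟨g, hg, hmin⟩ := exists_min_image (D.filter fun f => f.1 = e.1 ∧ sl X Y e < sl X Y f)
      (sl X Y) (by obtain ⟨f, h1, h2⟩ := hup; exact ⟨f, mem_filter.2 ⟨h1, h2⟩⟩)
    obtain ⟨hgD, hg1, hg2⟩ := mem_filter.1 hg
    have he3 := (hD e he).2.2
    have hg3 := (hD g hgD).2.2
    have hle : ∀ s, X e.1 ≤ s → ht X Y e s ≤ ht X Y g s := fun s hs => by
      rw [ht, ht, hg1]
      nlinarith
    obtain ⟨u, hu, humin⟩ := exists_min_image (W.filter fun u => X e.1 < X u ∧ X u ≤ X e.2 ∧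
        X u ≤ X g.2 ∧ ht X Y e (X u) ≤ Y u ∧ Y u ≤ ht X Y g (X u)) X (by
      rcases le_total (X e.2) (X g.2) with h | h
      · exact ⟨e.2, mem_filter.2 ⟨(hD e he).2.1, he3, le_rfl, h, (ht_right X Y he3).le,
          (ht_right X Y he3) ▸ hle _ he3.le⟩⟩
      · exact ⟨g.2, mem_filter.2 ⟨(hD g hgD).2.1, hg1 ▸ hg3, h, le_rfl,
          (ht_right X Y hg3) ▸ hle _ (hg1 ▸ hg3.le), (ht_right X Y hg3).ge⟩⟩)
    obtain ⟨huW, u1, u2, u3, u4, u5⟩ := mem_filter.1 hu
    refine ⟨g, u, hgD, hg1, hg2, huW, u1, u2, u3, u4, u5, fun f hf f1 f2 f3 f4 => ?_⟩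
    have hfg : f ≠ g := fun h => by rw [h] at f3; exact lt_irrefl _ f3
    have hfe : f ≠ e := fun h => by
      rw [h] at f4
      exact f4.elim (lt_irrefl _) fun h' => lt_irrefl _ h'.2
    have bet : ∀ m, X e.1 ≤ m → X f.1 ≤ m → m < X u →
        ht X Y e m ≤ ht X Y f m ∧ ht X Y f m ≤ ht X Y g m := by
      intro m m1 m2 m3
      constructor
      · rcases f4 with f4 | ⟨f4, f5⟩
        · by_contra hc
          obtain ⟨s, s1, s2, s3⟩ := ht_cross X Y f e m3 (not_le.1 hc) f4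
          exact NC f hf e he hfe s (by linarith) (by linarith) (by linarith) (by linarith) s3
        · simp only [ht] at f4 ⊢
          nlinarith
      · by_contra hc
        obtain ⟨s, s1, s2, s3⟩ := ht_cross X Y g f m3 (not_le.1 hc) f3
        exact NC g hgD f hf hfg.symm s (by rw [hg1]; linarith) (by linarith) (by linarith)
          (by linarith) s3
    rcases lt_trichotomy (X e.1) (X f.1) with h | h | h
    · obtain ⟨b1, b2⟩ := bet (X f.1) h.le le_rfl f1
      rw [ht_left] at b1 b2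
      have := humin f.1 (mem_filter.2 ⟨(hD f hf).1, h, by linarith, by linarith, b1, b2⟩)
      linarith
    · have h1 : f.1 = e.1 := hX _ (hD f hf).1 _ (hD e he).1 h.symm
      simp only [ht, h1, hg1] at f3 f4
      have h2 : sl X Y f < sl X Y g := by nlinarith
      have h3 : sl X Y e < sl X Y f := by
        rcases f4 with f4 | ⟨f4, f5⟩
        · nlinarith
        · nlinarith
      have := hmin f (mem_filter.2 ⟨hf, h1, h3⟩)
      linarith
    · obtain ⟨b1, b2⟩ := bet (X e.1) le_rfl h.le u1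
      rw [ht_left] at b1
      rw [← hg1, ht_left, hg1] at b2
      exact NV f hf e.1 (hD e he).1 h (by linarith) (le_antisymm b2 b1)
  choose! g u hw using wedge
  have c1 : (D.filter fun e => ¬ up e).card ≤ W.card := by
    refine card_le_card_of_injOn Prod.fst (fun e he => (hD e (mem_filter.1 he).1).1) ?_
    intro e he f hf h
    obtain ⟨he, he'⟩ := mem_filter.1 he
    obtain ⟨hf, hf'⟩ := mem_filter.1 hf
    exact SL e he f hf h (le_antisymm (not_lt.1 fun k => hf' ⟨e, he, h, k⟩)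
      (not_lt.1 fun k => he' ⟨f, hf, h.symm, k⟩))
  have c2 : ((D.filter up).filter fun e => u e = e.2).card ≤ W.card := by
    refine card_le_card_of_injOn Prod.snd
      (fun e he => (hD e (mem_filter.1 (mem_filter.1 he).1).1).2.1) ?_
    have k : ∀ e ∈ D, up e → u e = e.2 → ∀ f ∈ D, e.2 = f.2 → ¬ sl X Y f < sl X Y e := by
      intro e he hu h2 f hf h hlt
      obtain ⟨-, g1, g2, -, u1, -, -, -, -, z⟩ := hw e he hu
      have a1 : ht X Y e (X (u e)) = Y e.2 := by rw [h2, ht_right X Y (hD e he).2.2]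
      have a2 : ht X Y f (X (u e)) = Y e.2 := by rw [h2, h, ht_right X Y (hD f hf).2.2]
      refine z f hf (by rw [h2, h]; exact (hD f hf).2.2) (by rw [h2, h]) ?_
        (Or.inr ⟨a1.trans a2.symm, hlt⟩)
      rw [a2, ← a1, ht, ht, g1]
      nlinarith
    intro e he f hf h
    obtain ⟨he, he2⟩ := mem_filter.1 he
    obtain ⟨he, he1⟩ := mem_filter.1 he
    obtain ⟨hf, hf2⟩ := mem_filter.1 hf
    obtain ⟨hf, hf1⟩ := mem_filter.1 hf
    exact SR e he f hf h (le_antisymm (not_lt.1 (k e he he1 he2 f hf h) |>.trans le_rfl)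
      (not_lt.1 (k f hf hf1 hf2 e he h.symm)))
  have c3 : ((D.filter up).filter fun e => ¬ u e = e.2).card ≤ W.card := by
    refine card_le_card_of_injOn u (fun e he => ?_) ?_
    · obtain ⟨he, he1⟩ := mem_filter.1 (mem_filter.1 he).1
      exact (hw e he he1).2.2.2.1
    have k0 : ∀ e ∈ D, up e → ¬ u e = e.2 →
        X e.1 < X (u e) ∧ X (u e) < X e.2 ∧ ht X Y e (X (u e)) < Y (u e) := by
      intro e he hu h2
      obtain ⟨-, -, -, uW, u1, u2, -, u4, -, -⟩ := hw e he hu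
      have := lt_of_le_of_ne u2 fun h => h2 (hX _ uW _ (hD e he).2.1 h)
      exact ⟨u1, this, lt_of_le_of_ne u4 (NV e he _ uW u1 this)⟩
    have k : ∀ e ∈ D, up e → ∀ f ∈ D, up f → ¬ u f = f.2 → u e = u f →
        ¬ ht X Y e (X (u e)) < ht X Y f (X (u e)) := by
      intro e he hu f hf hu' h2 h hlt
      obtain ⟨-, -, -, -, -, -, -, -, u5, z⟩ := hw e he hu
      obtain ⟨b1, b2, b3⟩ := k0 f hf hu' h2
      rw [← h] at b1 b2 b3
      exact z f hf b1 b2.le (by linarith) (Or.inl hlt)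
    intro e he f hf h
    obtain ⟨he, he2⟩ := mem_filter.1 he
    obtain ⟨he, he1⟩ := mem_filter.1 he
    obtain ⟨hf, hf2⟩ := mem_filter.1 hf
    obtain ⟨hf, hf1⟩ := mem_filter.1 hf
    by_contra hne
    obtain ⟨a1, a2, -⟩ := k0 e he he1 he2
    obtain ⟨b1, b2, -⟩ := k0 f hf hf1 hf2
    have k1 := k e he he1 f hf hf1 hf2 h
    have k2 := k f hf hf1 e he he1 he2 h.symm
    rw [← h] at b1 b2 k2
    exact NC e he f hf hne _ a1 a2 b1 b2 (le_antisymm (not_lt.1 k2) (not_lt.1 k1))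
  have d1 := card_filter_add_card_filter_not (s := D) up
  have d2 := card_filter_add_card_filter_not (s := D.filter up) fun e => u e = e.2
  omega

/-- Layer form: edges weighted by the smaller weight of their ends. -/
theorem layer [DecidableEq ι] (n : ℕ) : ∀ (V : Finset ι) (T : Finset (ι × ι)) (w : ι → ℝ),
    V.card ≤ n → (∀ v ∈ V, 0 ≤ w v) → (∀ e ∈ T, e.1 ∈ V ∧ e.2 ∈ V ∧ w e.1 ≤ w e.2) →
    (∀ W ⊆ V, ∀ S ⊆ T, (∀ e ∈ S, e.1 ∈ W ∧ e.2 ∈ W) → S.card ≤ 3 * W.card) →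
    ∑ e ∈ T, w e.1 ≤ 3 * ∑ v ∈ V, w v := by
  induction n with
  | zero =>
    intro V T w hV _ hT _
    have : T = ∅ := eq_empty_of_forall_notMem fun e he => by
      have := (hT e he).1
      rw [card_eq_zero.1 (Nat.le_zero.1 hV)] at this
      simp at this
    rw [this, card_eq_zero.1 (Nat.le_zero.1 hV)]
    simp
  | succ n ih =>
    intro V T w hV hw hT hc
    rcases V.eq_empty_or_nonempty with rfl | hne
    · exact ih ∅ T w (by simp) hw hT hc
    obtain ⟨a, ha, hmin⟩ := exists_min_image V w hne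
    have h1 := ih (V.filter fun v => w a < w v) (T.filter fun e => w a < w e.1) (fun v => w v - w a)
      (by
        have : (V.filter fun v => w a < w v).card < V.card :=
          card_lt_card (filter_ssubset.2 ⟨a, ha, lt_irrefl _⟩)
        omega)
      (fun v hv => sub_nonneg.2 (mem_filter.1 hv).2.le)
      (fun e he => by
        obtain ⟨he, he'⟩ := mem_filter.1 he
        obtain ⟨b1, b2, b3⟩ := hT e he
        exact ⟨mem_filter.2 ⟨b1, he'⟩, mem_filter.2 ⟨b2, he'.trans_le b3⟩, by linarith⟩)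
      (fun W hW S hS h => hc W (hW.trans (filter_subset _ _)) S (hS.trans (filter_subset _ _)) h)
    have h2 : ∑ e ∈ T.filter (fun e => w a < w e.1), (w e.1 - w a) = ∑ e ∈ T, (w e.1 - w a) :=
      sum_filter_of_ne fun e he h => lt_of_le_of_ne (hmin _ (hT e he).1) fun k => h (by linarith)
    have h3 : ∑ v ∈ V.filter (fun v => w a < w v), (w v - w a) = ∑ v ∈ V, (w v - w a) :=
      sum_filter_of_ne fun v hv h => lt_of_le_of_ne (hmin _ hv) fun k => h (by linarith)
    have h4 : (T.card : ℝ) ≤ 3 * V.card := by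
      exact_mod_cast hc V Subset.rfl T Subset.rfl fun e he => ⟨(hT e he).1, (hT e he).2.1⟩
    simp only [h2, h3, sum_sub_distrib, sum_const, nsmul_eq_mul] at h1
    nlinarith [hw a ha]

end Pool.Agent.FS.ExcessOrder
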