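import Pool.Agent.FS.ExcessOrder.Main
import Pool.Agent.FS.ExcessOrder.Planar

/-! The graph of overlapping members is plane, so a member meets on average at most three larger
members. -/

open MeasureTheory Metric Set Filter
open scoped ENNReal RealInnerProductSpace

namespace Pool.Agent.FS.ExcessOrder

open Pool.Agent.Lib.MP_40d282_co

variable {ι : Type} {μ : ℝ} {x : ι → Plane} {ρ : ι → ℝ}

lemma acute {A C α γ d : ℝ} (hμ : 73 / 100 ≤ μ) (hA : 0 < A) (hC : 0 < C) (h1 : μ * A ≤ α)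
    (h2 : μ * C ≤ γ) (h3 : A + μ * C ≤ d) (h4 : C + μ * A ≤ d) (h5 : d ^ 2 ≤ α ^ 2 + γ ^ 2) :
    A + C ≤ α + γ := by
  by_contra hc
  have a1 : 73 / 100 * A ≤ μ * A := by gcongr
  have a2 : 73 / 100 * C ≤ μ * C := by gcongr
  have k1 : (73 / 100 * A) * (73 / 100 * C) ≤ α * γ :=
    mul_le_mul (by linarith) (by linarith) (by positivity) (by linarith)
  have k2 : (α + γ) ^ 2 ≤ (A + C) ^ 2 :=
    pow_le_pow_left₀ (by linarith) (not_le.1 hc).le 2
  have k0 : 0 < A * C := by positivity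
  rcases le_total C A with h | h
  · have k3 : (A + 73 / 100 * C) ^ 2 ≤ d ^ 2 := pow_le_pow_left₀ (by positivity) (by linarith) 2
    nlinarith [mul_le_mul_of_nonneg_right h hC.le]
  · have k3 : (C + 73 / 100 * A) ^ 2 ≤ d ^ 2 := pow_le_pow_left₀ (by positivity) (by linarith) 2
    nlinarith [mul_le_mul_of_nonneg_right h hA.le]

lemma pair (hA : IsArrangement μ x ρ) (hμ : 73 / 100 ≤ μ) {a c : ι} (hac : a ≠ c) {p : Plane}
    (h1 : μ * ρ a ≤ dist (x a) p) (h2 : μ * ρ c ≤ dist (x c) p) (h : 0 ≤ ⟪x a - p, x c - p⟫) :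
    ρ a + ρ c ≤ dist (x a) p + dist (x c) p := by
  refine acute hμ (hA.1 a) (hA.1 c) h1 h2 (low hA hac) (dist_comm (x a) (x c) ▸ low hA hac.symm) ?_
  have e : x a - x c = (x a - p) - (x c - p) := by abel
  rw [dist_eq_norm, dist_eq_norm, dist_eq_norm, e, norm_sub_sq_real]
  linarith

lemma seg_facts (a b : Plane) {l : ℝ} (l0 : 0 < l) (l1 : l < 1) {p : Plane}
    (hp : p = a + l • (b - a)) :
    dist a p + dist b p = dist a b ∧ ∃ k : ℝ, 0 < k ∧ b - p = -(k • (a - p)) := by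
  have e1 : a - p = l • (a - b) := by rw [hp]; module
  have e2 : b - p = -((1 - l) • (a - b)) := by rw [hp]; module
  constructor
  · rw [dist_eq_norm, dist_eq_norm, dist_eq_norm, e1, e2, norm_neg, norm_smul, norm_smul,
      Real.norm_of_nonneg l0.le, Real.norm_of_nonneg (by linarith)]
    ring
  · refine ⟨(1 - l) / l, div_pos (by linarith) l0, ?_⟩
    rw [e1, e2, smul_smul, div_mul_cancel₀ _ l0.ne']

lemma out_core (hA : IsArrangement μ x ρ) {a c d : ι} (hac : a ≠ c) (had : a ≠ d) {p : Plane}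
    (h : dist (x c) p + dist (x d) p < ρ c + ρ d) : μ * ρ a ≤ dist (x a) p := by
  have t1 := dist_triangle_right (x c) (x a) p
  have t2 := dist_triangle_right (x d) (x a) p
  have l1 := low hA hac.symm
  have l2 := low hA had.symm
  linarith

lemma no_cross (hA : IsArrangement μ x ρ) (hμ : 73 / 100 ≤ μ) {a b c d : ι} (hac : a ≠ c)
    (had : a ≠ d) (hbc : b ≠ c) (hbd : b ≠ d) (hab : dist (x a) (x b) < ρ a + ρ b)
    (hcd : dist (x c) (x d) < ρ c + ρ d) {l m : ℝ} (l0 : 0 < l) (l1 : l < 1) (m0 : 0 < m)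
    (m1 : m < 1) : x a + l • (x b - x a) ≠ x c + m • (x d - x c) := by
  intro h
  obtain ⟨s1, k, k0, hk⟩ := seg_facts (x a) (x b) l0 l1 rfl
  obtain ⟨s2, k', k0', hk'⟩ := seg_facts (x c) (x d) m0 m1 h
  set p := x a + l • (x b - x a)
  rw [← s1] at hab
  rw [← s2] at hcd
  have ca := out_core hA hac had hcd
  have cb := out_core hA hbc hbd hcd
  have cc := out_core hA hac.symm hbc.symm hab
  have cd := out_core hA had.symm hbd.symm hab
  rcases le_total 0 ⟪x a - p, x c - p⟫ with h0 | h0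
  · have p1 := pair hA hμ hac ca cc h0
    have p2 := pair hA hμ hbd cb cd (by
      rw [hk, hk', inner_neg_neg, inner_smul_left, inner_smul_right]
      simp only [conj_trivial]
      positivity)
    linarith
  · have p1 := pair hA hμ had ca cd (by
      rw [hk', inner_neg_right, inner_smul_right]
      nlinarith)
    have p2 := pair hA hμ hbc cb cc (by
      rw [hk, inner_neg_left, inner_smul_left]
      simp only [conj_trivial]
      nlinarith)
    linarith

lemma no_vertex (hA : IsArrangement μ x ρ) (hμ : 73 / 100 ≤ μ) {a b z : ι} (hza : z ≠ a)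
    (hzb : z ≠ b) (hab : dist (x a) (x b) < ρ a + ρ b) {l : ℝ} (l0 : 0 < l) (l1 : l < 1) :
    x z ≠ x a + l • (x b - x a) := by
  intro h
  have s1 := (seg_facts (x a) (x b) l0 l1 h).1
  have := out_core hA hza hzb (p := x z) (by linarith)
  rw [dist_self] at this
  nlinarith [hA.1 z]

lemma x_inj (hA : IsArrangement μ x ρ) (hμ : 73 / 100 ≤ μ) {a b : ι} (h : x a = x b) : a = b := by
  by_contra hne
  have := low hA hne
  rw [h, dist_self] at this
  nlinarith [hA.1 a, hA.1 b]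

lemma point {X Y : ι → ℝ} {ε : ℝ} (hX : ∀ v, X v = x v 0 + ε * x v 1) (hY : ∀ v, Y v = x v 1)
    (e : ι × ι) {s : ℝ} (h1 : X e.1 < s) (h2 : s < X e.2) : ∃ l : ℝ, 0 < l ∧ l < 1 ∧
      (x e.1 + l • (x e.2 - x e.1)) 0 = s - ε * ht X Y e s ∧
      (x e.1 + l • (x e.2 - x e.1)) 1 = ht X Y e s := by
  have h : 0 < X e.2 - X e.1 := by linarith
  have a : (x e.1 + ((s - X e.1) / (X e.2 - X e.1)) • (x e.2 - x e.1)) 1 = ht X Y e s := by
    simp only [PiLp.add_apply, PiLp.smul_apply, PiLp.sub_apply, smul_eq_mul, ht, sl, hY]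
    ring
  refine ⟨(s - X e.1) / (X e.2 - X e.1), div_pos (by linarith) h,
    (div_lt_one h).2 (by linarith), ?_, a⟩
  rw [← a]
  simp only [PiLp.add_apply, PiLp.smul_apply, PiLp.sub_apply, smul_eq_mul]
  have := div_mul_cancel₀ (s - X e.1) h.ne'
  set l := (s - X e.1) / (X e.2 - X e.1)
  rw [hX e.1, hX e.2] at this
  linear_combination this

lemma count [DecidableEq ι] (hA : IsArrangement μ x ρ) (hμ : 73 / 100 ≤ μ) (W : Finset ι)
    (S : Finset (ι × ι)) (h1 : ∀ e ∈ S, e.1 ∈ W ∧ e.2 ∈ W)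
    (h2 : ∀ e ∈ S, e.1 ≠ e.2 ∧ dist (x e.1) (x e.2) < ρ e.1 + ρ e.2)
    (h3 : ∀ e ∈ S, e.swap ∉ S) : S.card ≤ 3 * W.card := by
  classical
  obtain ⟨ε, hε⟩ := Infinite.exists_notMem_finset
    ((W ×ˢ W).image fun e => (x e.2 0 - x e.1 0) / (x e.1 1 - x e.2 1))
  let X : ι → ℝ := fun v => x v 0 + ε * x v 1
  let Y : ι → ℝ := fun v => x v 1
  have hX : ∀ a ∈ W, ∀ b ∈ W, X a = X b → a = b := by
    intro a ha b hb h
    have h' : x a 0 + ε * x a 1 = x b 0 + ε * x b 1 := h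
    by_cases k : x a 1 = x b 1
    · refine x_inj hA hμ ?_
      ext i
      fin_cases i
      · rw [k] at h'
        simpa using h'
      · exact k
    · refine absurd (Finset.mem_image.2 ⟨(a, b), Finset.mem_product.2 ⟨ha, hb⟩, ?_⟩) hε
      rw [div_eq_iff (sub_ne_zero.2 k)]
      linarith
  let o : ι × ι → ι × ι := fun e => if X e.1 < X e.2 then e else e.swap
  have ho : ∀ e, o e = e ∨ o e = e.swap := fun e => by
    by_cases h : X e.1 < X e.2 <;> simp [o, h]
  have hinj : Set.InjOn o S := by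
    intro e he f hf h
    rcases ho e with a | a <;> rcases ho f with b | b <;> rw [a, b] at h
    · exact h
    · exact absurd (h ▸ he) (h3 f hf)
    · exact absurd (h.symm ▸ hf) (h3 e he)
    · exact Prod.swap_injective h
  have hD : ∀ e ∈ S.image o, (e.1 ∈ W ∧ e.2 ∈ W ∧ X e.1 < X e.2) ∧
      dist (x e.1) (x e.2) < ρ e.1 + ρ e.2 := by
    intro e he
    obtain ⟨f, hf, rfl⟩ := Finset.mem_image.1 he
    by_cases h : X f.1 < X f.2
    · simp only [o, if_pos h]
      exact ⟨⟨(h1 f hf).1, (h1 f hf).2, h⟩, (h2 f hf).2⟩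
    · simp only [o, if_neg h, Prod.fst_swap, Prod.snd_swap]
      refine ⟨⟨(h1 f hf).2, (h1 f hf).1, lt_of_le_of_ne (not_lt.1 h) fun k =>
        (h2 f hf).1 (hX _ (h1 f hf).1 _ (h1 f hf).2 k.symm)⟩, ?_⟩
      rw [dist_comm, add_comm]
      exact (h2 f hf).2
  rw [← Finset.card_image_of_injOn hinj]
  refine planar X Y W _ hX (fun e he => (hD e he).1) ?_ ?_
  · intro e he z _ a1 a2 h
    obtain ⟨l, l0, l1, p0, p1⟩ := point (x := x) (X := X) (Y := Y) (fun _ => rfl) (fun _ => rfl) e a1 a2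
    refine no_vertex hA hμ (z := z) (fun k => by rw [k] at a1; exact lt_irrefl _ a1)
      (fun k => by rw [k] at a2; exact lt_irrefl _ a2) (hD e he).2 l0 l1 ?_
    ext i
    fin_cases i
    · refine Eq.trans ?_ p0.symm
      rw [h]
      simp [X, Y]
    · exact (p1.trans h).symm
  · intro e he f hf n1 n2 s a1 a2 a3 a4 h
    obtain ⟨l, l0, l1, p0, p1⟩ := point (x := x) (X := X) (Y := Y) (fun _ => rfl) (fun _ => rfl) e a1 a2
    obtain ⟨m, m0, m1, q0, q1⟩ := point (x := x) (X := X) (Y := Y) (fun _ => rfl) (fun _ => rfl) f a3 a4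
    refine no_cross hA hμ n1 (fun k => by rw [k] at a1; linarith)
      (fun k => by rw [k] at a2; linarith) n2 (hD e he).2 (hD f hf).2 l0 l1 m0 m1 ?_
    ext i
    fin_cases i
    · exact p0.trans (h ▸ q0.symm)
    · exact p1.trans (h ▸ q1.symm)

lemma int_cap {h : ℝ} (h0 : 0 ≤ h) (h1 : h < 1) :
    ∫ b in (-h)..h, √(1 - b ^ 2) = Real.arcsin h + h * √(1 - h ^ 2) := by
  rw [intervalIntegral.integral_eq_sub_of_hasDerivAt
    (f := fun b => (b * √(1 - b ^ 2) + Real.arcsin b) / 2) (fun b hb => ?_)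
    (Continuous.intervalIntegrable (by fun_prop) _ _)]
  · simp only [Real.arcsin_neg, neg_sq]
    ring
  · rw [uIcc_of_le (by linarith)] at hb
    have b1 : 0 < 1 - b ^ 2 := by nlinarith [hb.1, hb.2]
    have s0 := Real.sqrt_pos.2 b1
    have d1 : HasDerivAt (fun b : ℝ => 1 - b ^ 2) (-(2 * b)) b := by
      simpa using (hasDerivAt_pow 2 b).const_sub 1
    have d2 := (((hasDerivAt_id b).mul (d1.sqrt b1.ne')).add
      (Real.hasDerivAt_arcsin (x := b) (by linarith [hb.1]) (by linarith [hb.2]))).div_const 2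
    refine d2.congr_deriv ?_
    have s2 := Real.sq_sqrt b1.le
    simp only [id]
    field_simp
    nlinarith

lemma vol_cap1 (hμ : 0 < μ) (hμ1 : μ < 1) :
    volume {p : Plane | p 0 ∈ Icc (-√(1 - μ ^ 2)) √(1 - μ ^ 2) ∧ p 1 ∈ Ioo μ √(1 - p 0 ^ 2)}
      = ENNReal.ofReal (Real.arccos μ - μ * √(1 - μ ^ 2)) := by
  have s2 : √(1 - μ ^ 2) ^ 2 = 1 - μ ^ 2 := Real.sq_sqrt (by nlinarith)
  have h0 := Real.sqrt_nonneg (1 - μ ^ 2)
  have h1 : √(1 - μ ^ 2) < 1 := by nlinarith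
  rw [Real.arccos_eq_arcsin hμ.le]
  generalize √(1 - μ ^ 2) = h at *
  have e : {p : Plane | p 0 ∈ Icc (-h) h ∧ p 1 ∈ Ioo μ √(1 - p 0 ^ 2)}
      = (WithLp.ofLp : Plane → (Fin 2 → ℝ)) ⁻¹' (MeasurableEquiv.finTwoArrow ⁻¹'
        regionBetween (fun _ => μ) (fun b => √(1 - b ^ 2)) (Icc (-h) h)) := rfl
  have m : MeasurableSet (regionBetween (fun _ => μ) (fun b => √(1 - b ^ 2)) (Icc (-h) h)) :=
    measurableSet_regionBetween (by fun_prop) (by fun_prop) measurableSet_Icc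
  rw [e, (PiLp.volume_preserving_ofLp (Fin 2)).measure_preimage
    (MeasurableEquiv.finTwoArrow.measurable m).nullMeasurableSet,
    (volume_preserving_finTwoArrow ℝ).measure_preimage m.nullMeasurableSet, Measure.volume_eq_prod,
    volume_regionBetween_eq_integral (Continuous.integrableOn_Icc (by fun_prop))
      (Continuous.integrableOn_Icc (by fun_prop)) measurableSet_Icc]
  · congr 1
    rw [integral_Icc_eq_integral_Ioc, ← intervalIntegral.integral_of_le (by linarith)]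
    simp only [Pi.sub_apply]
    rw [intervalIntegral.integral_sub (Continuous.intervalIntegrable (by fun_prop) _ _) (by simp),
      int_cap h0 h1, intervalIntegral.integral_const, smul_eq_mul,
      show 1 - h ^ 2 = μ ^ 2 by linarith, Real.sqrt_sq hμ.le]
    ring
  · intro b hb
    exact Real.le_sqrt_of_sq_le (by nlinarith [hb.1, hb.2])

/-- Area of the part of a disk beyond the line at distance `μ r` from the centre. -/
lemma vol_seg' (z e : Plane) (he : ‖e‖ = 1) {r : ℝ} (hr : 0 < r) (hμ : 0 < μ) (hμ1 : μ < 1) :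
    volume {y : Plane | y ∈ ball z r ∧ μ * r < ⟪y - z, e⟫}
      ≤ ENNReal.ofReal ((Real.arccos μ - μ * √(1 - μ ^ 2)) * r ^ 2) := by
  let e0 : Plane := EuclideanSpace.single 1 1
  have he0 : ‖e‖ = ‖e0‖ := by simp [e0, he]
  let f := (ℝ ∙ (e - e0))ᗮ.reflection
  have hf : f e = e0 := Submodule.reflection_sub he0
  have hmp : MeasurePreserving (fun y : Plane => f (y - z)) volume volume :=
    f.measurePreserving.comp (measurePreserving_sub_right volume z)
  have hm : MeasurableSet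
      {p : Plane | p 0 ∈ Icc (-√(1 - μ ^ 2)) √(1 - μ ^ 2) ∧ p 1 ∈ Ioo μ √(1 - p 0 ^ 2)} :=
    (measurableSet_Icc.preimage (by fun_prop : Measurable fun p : Plane => p 0)).inter
      ((measurableSet_lt (by fun_prop) (by fun_prop : Measurable fun p : Plane => p 1)).inter
        (measurableSet_lt (by fun_prop : Measurable fun p : Plane => p 1) (by fun_prop)))
  have hs := Measure.addHaar_preimage_smul (volume : Measure Plane) (inv_ne_zero hr.ne')
    {p : Plane | p 0 ∈ Icc (-√(1 - μ ^ 2)) √(1 - μ ^ 2) ∧ p 1 ∈ Ioo μ √(1 - p 0 ^ 2)}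
  rw [vol_cap1 hμ hμ1, finrank_euclideanSpace_fin, inv_pow, inv_inv, abs_of_nonneg (sq_nonneg r),
    ← ENNReal.ofReal_mul (sq_nonneg r), mul_comm] at hs
  rw [← hs, ← hmp.measure_preimage (hm.preimage (by fun_prop)).nullMeasurableSet]
  refine measure_mono fun y hy => ?_
  obtain ⟨h1, h2⟩ := hy
  have h3 : ⟪y - z, e⟫ = (f (y - z)) 1 := by
    rw [← f.inner_map_map, hf]
    simp only [e0, EuclideanSpace.inner_single_right]
    simp
  have h4 : ‖r⁻¹ • f (y - z)‖ < 1 := by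
    rw [norm_smul, f.norm_map, ← dist_eq_norm, norm_inv, Real.norm_of_nonneg hr.le,
      inv_mul_lt_iff₀ hr, mul_one]
    exact h1
  have h5 : (r⁻¹ • f (y - z)) 0 ^ 2 + (r⁻¹ • f (y - z)) 1 ^ 2 < 1 := by
    have := EuclideanSpace.real_norm_sq_eq (r⁻¹ • f (y - z))
    rw [Fin.sum_univ_two] at this
    rw [← this]
    nlinarith [norm_nonneg (r⁻¹ • f (y - z))]
  have h6 : μ < (r⁻¹ • f (y - z)) 1 := by
    rw [PiLp.smul_apply, smul_eq_mul, lt_inv_mul_iff₀ hr, ← h3, mul_comm]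
    exact h2
  change (r⁻¹ • f (y - z)) 0 ∈ Icc (-√(1 - μ ^ 2)) √(1 - μ ^ 2) ∧
    (r⁻¹ • f (y - z)) 1 ∈ Ioo μ √(1 - (r⁻¹ • f (y - z)) 0 ^ 2)
  generalize (r⁻¹ • f (y - z)) 0 = b at *
  generalize (r⁻¹ • f (y - z)) 1 = a at *
  exact ⟨abs_le.1 (Real.abs_le_sqrt (by nlinarith)), h6, Real.lt_sqrt_of_sq_lt (by linarith)⟩

lemma overlap' (hA : IsArrangement μ x ρ) (hμ : 73 / 100 ≤ μ) (hμ1 : μ < 1) {i j : ι} (h : j ≠ i) :
    volume (ball (x i) (ρ i) ∩ ball (x j) (ρ j))
      ≤ ENNReal.ofReal ((Real.arccos μ - μ * √(1 - μ ^ 2)) * ρ i ^ 2) := by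
  have e4 := low hA h
  obtain ⟨a1, a2⟩ := dir_spec (x := x) (i := i) (j := j) (by nlinarith [hA.1 i, hA.1 j])
  refine (measure_mono fun y hy => ?_).trans (vol_seg' (x i) (dir x i j) a1 (hA.1 i)
    (by linarith) hμ1)
  refine ⟨hy.1, ?_⟩
  have e1 : y - x i = (y - x j) + dist (x j) (x i) • dir x i j := by rw [a2]; abel
  have e2 := abs_real_inner_le_norm (y - x j) (dir x i j)
  have e3 : ‖y - x j‖ < ρ j := by rw [← dist_eq_norm]; exact hy.2
  rw [e1, inner_add_left, inner_smul_left, real_inner_self_eq_norm_sq, a1]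
  rw [a1] at e2
  have e5 := (abs_le.1 e2).1
  simp only [conj_trivial]
  linarith

lemma fin_sum (hA : IsArrangement μ x ρ) (hμ : 73 / 100 ≤ μ) (hμ1 : μ < 1) {c : ι → ℕ}
    (hc : Function.Injective c) (V : Finset ι) :
    ∑ i ∈ V, volume (ball (x i) (ρ i))
      ≤ ENNReal.ofReal (Real.pi / (Real.pi - 3 * (Real.arccos μ - μ * √(1 - μ ^ 2))))
        * volume (⋃ i ∈ V, ball (x i) (ρ i)) := by
  classical
  set y := Real.arccos μ - μ * √(1 - μ ^ 2) with hy
  have s0 : 0 < √(1 - μ ^ 2) := Real.sqrt_pos.2 (by nlinarith)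
  have y0 : 0 ≤ y := by
    have := Real.sin_le (Real.arccos_nonneg μ)
    rw [Real.sin_arccos] at this
    nlinarith
  have p3 := Real.pi_gt_three
  have p4 : 0 < Real.pi - 3 * y := by
    have h1 : Real.arccos μ ≤ Real.arccos (Real.cos (Real.pi / 3)) :=
      Real.arccos_le_arccos (by rw [Real.cos_pi_div_three]; linarith)
    rw [Real.arccos_cos (by linarith) (by linarith)] at h1
    nlinarith
  let r : ι → ι → Prop := fun i j =>
    (ρ i < ρ j ∨ (ρ i = ρ j ∧ c j < c i)) ∧ dist (x i) (x j) < ρ i + ρ j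
  let E : ι → Set Plane := fun i => ball (x i) (ρ i) \ ⋃ j ∈ V.filter (r i), ball (x j) (ρ j)
  have rne : ∀ i j, r i j → j ≠ i ∧ ρ i ≤ ρ j ∧ ¬ r j i := by
    rintro i j ⟨h | ⟨h, h'⟩, -⟩
    · exact ⟨fun e => by rw [e] at h; exact lt_irrefl _ h, h.le,
        fun k => k.1.elim (fun a => by linarith) fun a => by linarith [a.1]⟩
    · exact ⟨fun e => by rw [e] at h'; exact lt_irrefl _ h', h.le,
        fun k => k.1.elim (fun a => by linarith) fun a => by have := a.2; omega⟩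
  have hd : (V : Set ι).PairwiseDisjoint E := by
    intro i hi j hj hij
    refine Set.disjoint_left.2 fun z zi zj => ?_
    have t := dist_triangle_left (x i) (x j) z
    have a : dist z (x i) < ρ i := zi.1
    have b : dist z (x j) < ρ j := zj.1
    have k1 : ¬ r i j := fun k => zi.2 (mem_iUnion₂.2 ⟨j, Finset.mem_filter.2 ⟨hj, k⟩, zj.1⟩)
    have k2 : ¬ r j i := fun k => zj.2 (mem_iUnion₂.2 ⟨i, Finset.mem_filter.2 ⟨hi, k⟩, zi.1⟩)
    have d1 : dist (x i) (x j) < ρ i + ρ j := by linarith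
    have d2 : dist (x j) (x i) < ρ j + ρ i := by rw [dist_comm]; linarith
    rcases lt_trichotomy (ρ i) (ρ j) with h | h | h
    · exact k1 ⟨Or.inl h, d1⟩
    · rcases lt_or_gt_of_ne (fun e => hij (hc e) : c i ≠ c j) with h' | h'
      · exact k2 ⟨Or.inr ⟨h.symm, h'⟩, d2⟩
      · exact k1 ⟨Or.inr ⟨h, h'⟩, d1⟩
    · exact k2 ⟨Or.inl h, d2⟩
  have hm : ∀ i ∈ V, MeasurableSet (E i) := fun i _ =>
    measurableSet_ball.diff (isOpen_biUnion fun _ _ => isOpen_ball).measurableSet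
  have h1 : ∑ i ∈ V, volume (E i) ≤ volume (⋃ i ∈ V, ball (x i) (ρ i)) := by
    rw [← measure_biUnion_finset hd hm]
    exact measure_mono (iUnion₂_mono fun _ _ => sdiff_subset)
  have h2 : ∀ i ∈ V, volume (ball (x i) (ρ i))
      ≤ volume (E i) + ∑ j ∈ V.filter (r i), ENNReal.ofReal (y * ρ i ^ 2) := by
    intro i _
    refine (measure_le_inter_add_sdiff volume _ (⋃ j ∈ V.filter (r i), ball (x j) (ρ j))).trans
      ((add_comm _ _).trans_le (add_le_add le_rfl ?_))
    rw [inter_iUnion₂]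
    exact (measure_biUnion_finset_le _ _).trans (Finset.sum_le_sum fun j hj =>
      overlap' hA hμ hμ1 (rne i j (Finset.mem_filter.1 hj).2).1)
  have h3 := layer V.card V ((V ×ˢ V).filter fun e => r e.1 e.2) (fun i => ρ i ^ 2) le_rfl
    (fun _ _ => sq_nonneg _)
    (fun e he => by
      obtain ⟨a, b⟩ := Finset.mem_filter.1 he
      exact ⟨(Finset.mem_product.1 a).1, (Finset.mem_product.1 a).2,
        pow_le_pow_left₀ (hA.1 _).le (rne _ _ b).2.1 2⟩)
    (fun W _ S hS h => count hA hμ W S h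
      (fun e he => ⟨(rne _ _ (Finset.mem_filter.1 (hS he)).2).1.symm,
        (Finset.mem_filter.1 (hS he)).2.2⟩)
      fun e he he' => (rne _ _ (Finset.mem_filter.1 (hS he)).2).2.2 (Finset.mem_filter.1 (hS he')).2)
  have h4 : ∑ i ∈ V, ∑ j ∈ V.filter (r i), ENNReal.ofReal (y * ρ i ^ 2)
      ≤ ENNReal.ofReal (3 * y * ∑ i ∈ V, ρ i ^ 2) := by
    have : ∑ i ∈ V, ∑ j ∈ V.filter (r i), ENNReal.ofReal (y * ρ i ^ 2)
        = ∑ e ∈ (V ×ˢ V).filter fun e => r e.1 e.2, ENNReal.ofReal (y * ρ e.1 ^ 2) := by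
      rw [Finset.sum_filter, Finset.sum_product]
      exact Finset.sum_congr rfl fun i _ => Finset.sum_filter _ _
    rw [this, ← ENNReal.ofReal_sum_of_nonneg fun _ _ => by positivity, ← Finset.mul_sum]
    exact ENNReal.ofReal_le_ofReal (by nlinarith)
  have h5 := (Finset.sum_le_sum h2).trans_eq Finset.sum_add_distrib |>.trans (add_le_add h1 h4)
  have h6 : ∑ i ∈ V, volume (ball (x i) (ρ i)) = ENNReal.ofReal (Real.pi * ∑ i ∈ V, ρ i ^ 2) := by
    rw [Finset.mul_sum, ENNReal.ofReal_sum_of_nonneg fun _ _ => by positivity]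
    exact Finset.sum_congr rfl fun i _ => vol_b _ (hA.1 i).le
  have hfin : volume (⋃ i ∈ V, ball (x i) (ρ i)) ≠ ∞ :=
    ((measure_biUnion_finset_le _ _).trans_lt (h6 ▸ ENNReal.ofReal_lt_top)).ne
  rw [h6, ← ENNReal.ofReal_toReal hfin] at h5 ⊢
  have v0 : 0 ≤ (volume (⋃ i ∈ V, ball (x i) (ρ i))).toReal := ENNReal.toReal_nonneg
  set v := (volume (⋃ i ∈ V, ball (x i) (ρ i))).toReal
  have q0 : 0 ≤ ∑ i ∈ V, ρ i ^ 2 := Finset.sum_nonneg fun _ _ => sq_nonneg _
  rw [← ENNReal.ofReal_add v0 (by positivity), ENNReal.ofReal_le_ofReal_iff (by positivity)] at h5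
  rw [← ENNReal.ofReal_mul (by positivity)]
  refine ENNReal.ofReal_le_ofReal ?_
  rw [div_mul_eq_mul_div, le_div_iff₀ p4, mul_assoc]
  exact mul_le_mul_of_nonneg_left (by linarith) (by linarith)

theorem main3 [Countable ι] (hA : IsArrangement μ x ρ) (hμ : √3 - 1 < μ) (hμ1 : μ < 1) :
    unionDensity x ρ
      ≤ ENNReal.ofReal (Real.pi / (Real.pi - 3 * (Real.arccos μ - μ * √(1 - μ ^ 2)))) := by
  have h3 : (173 / 100 : ℝ) ≤ √3 := Real.le_sqrt_of_sq_le (by norm_num)
  obtain ⟨c, hc⟩ := Countable.exists_injective_nat ι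
  refine limsup_le_of_le (by isBoundedDefault) (Eventually.of_forall fun R =>
    ENNReal.div_le_of_le_mul ?_)
  rw [insideSum, ENNReal.tsum_eq_iSup_sum]
  refine iSup_le fun V => ?_
  have hA' : IsArrangement μ
      (fun i : {i : ι // ball (x i) (ρ i) ⊆ closedBall (0 : Plane) R} => x i) (fun i => ρ i) :=
    ⟨fun i => hA.1 i, fun i j h => hA.2 i j fun e => h (Subtype.ext e)⟩
  exact (fin_sum hA' (by linarith) hμ1 (hc.comp Subtype.val_injective) V).trans
    (mul_le_mul_right (measure_mono (iUnion₂_subset fun i _ => subset_iUnion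
      (fun i : {i : ι // ball (x i) (ρ i) ⊆ closedBall (0 : Plane) R} => ball (x i) (ρ i)) i)) _)

end Pool.Agent.FS.ExcessOrder
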